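import Mathlib

set_option autoImplicit false

/-!
Power series part: if `(c n)` has a rational generating series and
`c (n+1) = 2 c n + 4 B n`, where `B (2m) = centralBinom m`, `B (2m+1) = 0`, contradiction.
-/

namespace Run7.h36

open PowerSeries

/-- the series `∑ binom(2m,m) t^(2m)` -/
noncomputable def gser : PowerSeries ℚ :=
  PowerSeries.mk fun n => if Even n then ((Nat.centralBinom (n / 2) : ℕ) : ℚ) else 0

lemma gser_coeff_even (m : ℕ) : PowerSeries.coeff (2 * m) gser = (Nat.centralBinom m : ℚ) := by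
  simp [gser]

lemma gser_coeff_odd (m : ℕ) : PowerSeries.coeff (2 * m + 1) gser = 0 := by
  simp [gser]

lemma gser_rec (n : ℕ) :
    ((n : ℚ) + 2) * PowerSeries.coeff (n + 2) gser = 4 * ((n : ℚ) + 1) * PowerSeries.coeff n gser := by
  rcases Nat.even_or_odd' n with ⟨m, rfl | rfl⟩
  · rw [show 2 * m + 2 = 2 * (m + 1) by ring, gser_coeff_even, gser_coeff_even]
    have h := Nat.succ_mul_centralBinom_succ m
    have h' : ((m : ℚ) + 1) * (Nat.centralBinom (m + 1) : ℚ)
        = 2 * (2 * (m : ℚ) + 1) * (Nat.centralBinom m : ℚ) := by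
      exact_mod_cast h
    push_cast
    linear_combination 2 * h'
  · rw [show 2 * m + 1 + 2 = 2 * (m + 1) + 1 by ring, gser_coeff_odd, gser_coeff_odd]
    simp

lemma gser_ode : (1 - PowerSeries.C (4 : ℚ) * (X : PowerSeries ℚ) ^ 2) * d⁄dX ℚ gser
    = PowerSeries.C (4 : ℚ) * (X * gser) := by
  ext n
  rw [sub_mul, one_mul, map_sub, mul_assoc, PowerSeries.coeff_C_mul,
    PowerSeries.coeff_C_mul]
  rw [PowerSeries.coeff_derivative]
  rcases n with _ | n
  · simp [gser]
  · rw [PowerSeries.coeff_succ_X_mul, pow_two, mul_assoc, PowerSeries.coeff_succ_X_mul]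
    rcases n with _ | n
    · simp only [PowerSeries.coeff_zero_X_mul]
      have := gser_rec 0
      simp only [Nat.cast_zero] at this
      push_cast
      linear_combination this
    · rw [PowerSeries.coeff_succ_X_mul, PowerSeries.coeff_derivative]
      have := gser_rec (n + 1)
      push_cast at this ⊢
      linear_combination this

lemma gser_sq : gser ^ 2 * (1 - PowerSeries.C (4 : ℚ) * (X : PowerSeries ℚ) ^ 2) = 1 := by
  apply PowerSeries.derivative.ext
  · have hode := gser_ode
    set A : PowerSeries ℚ := 1 - PowerSeries.C (4 : ℚ) * (X : PowerSeries ℚ) ^ 2 with hA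
    have hAd : d⁄dX ℚ A = - (PowerSeries.C (8 : ℚ) * X) := by
      rw [hA]
      rw [map_sub, Derivation.map_one_eq_zero, Derivation.leibniz, PowerSeries.derivative_C,
        PowerSeries.derivative_pow, PowerSeries.derivative_X]
      rw [show (8 : ℚ) = 4 * 2 by norm_num, map_mul]
      simp only [smul_eq_mul, Nat.cast_ofNat, mul_zero, add_zero]
      have : (PowerSeries.C (2 : ℚ)) = (2 : PowerSeries ℚ) := by
        exact map_ofNat (PowerSeries.C (R := ℚ)) 2
      rw [this]
      ring
    rw [Derivation.leibniz, PowerSeries.derivative_pow, hAd, Derivation.map_one_eq_zero]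
    simp only [smul_eq_mul, Nat.cast_ofNat]
    rw [show (8 : ℚ) = 2 * 4 by norm_num, map_mul]
    have h2 : (PowerSeries.C (2 : ℚ)) = (2 : PowerSeries ℚ) := by
      exact map_ofNat (PowerSeries.C (R := ℚ)) 2
    rw [h2]
    linear_combination (2 * gser) * hode
  · simp [gser]

/-- `∑ binom(2m,m) t^(2m)` is not a rational function. -/
theorem gser_not_rational (P Q : Polynomial ℚ) (hQ : Q ≠ 0)
    (h : (Q : PowerSeries ℚ) * gser = (P : PowerSeries ℚ)) : False := by
  -- P^2 * (1-4X^2) = Q^2
  have h1 : (P : PowerSeries ℚ) ^ 2 * (1 - PowerSeries.C (4 : ℚ) * (X : PowerSeries ℚ) ^ 2)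
      = (Q : PowerSeries ℚ) ^ 2 := by
    rw [← h]
    have := gser_sq
    linear_combination (Q : PowerSeries ℚ) ^ 2 * this
  have h2 : P ^ 2 * (1 - Polynomial.C (4 : ℚ) * Polynomial.X ^ 2) = Q ^ 2 := by
    have : ((P ^ 2 * (1 - Polynomial.C (4 : ℚ) * Polynomial.X ^ 2) : Polynomial ℚ) :
        PowerSeries ℚ) = ((Q ^ 2 : Polynomial ℚ) : PowerSeries ℚ) := by
      push_cast
      exact h1
    exact_mod_cast this
  have hP : P ≠ 0 := by
    rintro rfl
    apply hQ
    have : Q ^ 2 = 0 := by rw [← h2]; simp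
    exact pow_eq_zero_iff (two_ne_zero) |>.1 this
  have hfac : (1 - Polynomial.C (4 : ℚ) * Polynomial.X ^ 2 : Polynomial ℚ)
      = (Polynomial.X - Polynomial.C (1/2 : ℚ)) * (Polynomial.C (-4 : ℚ) *
        (Polynomial.X - Polynomial.C (-1/2 : ℚ))) := by
    apply Polynomial.funext
    intro r
    simp
    ring
  have hcount := congrArg (fun R => Polynomial.rootMultiplicity (1/2 : ℚ) R) h2
  have hA : (1 - Polynomial.C (4 : ℚ) * Polynomial.X ^ 2 : Polynomial ℚ) ≠ 0 := by
    intro h0
    rw [h0, mul_zero] at h2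
    exact hQ (pow_eq_zero_iff (two_ne_zero) |>.1 h2.symm)
  have hmA : Polynomial.rootMultiplicity (1/2 : ℚ)
      (1 - Polynomial.C (4 : ℚ) * Polynomial.X ^ 2 : Polynomial ℚ) = 1 := by
    rw [hfac] at hA ⊢
    rw [Polynomial.rootMultiplicity_mul hA, Polynomial.rootMultiplicity_X_sub_C_self]
    rw [Polynomial.rootMultiplicity_eq_zero]
    intro hroot
    simp [Polynomial.IsRoot] at hroot
    norm_num at hroot
  rw [Polynomial.rootMultiplicity_mul (mul_ne_zero (pow_ne_zero _ hP) hA), pow_two P, pow_two Q,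
    Polynomial.rootMultiplicity_mul (mul_ne_zero hP hP),
    Polynomial.rootMultiplicity_mul (mul_ne_zero hQ hQ), hmA] at hcount
  omega

/-- The abstract conclusion: a sequence `c` with `c (n+1) = 2 c n + 4 b n`, `b (2m)` the central
binomial coefficients and `b (2m+1) = 0`, has no rational generating series. -/
theorem not_rational_of_rec (c : ℕ → ℚ)
    (hc : ∀ n, c (n + 1) = 2 * c n + 4 * PowerSeries.coeff n gser) (P Q : Polynomial ℚ)
    (hQ : Q ≠ 0) (h : (Q : PowerSeries ℚ) * PowerSeries.mk c = (P : PowerSeries ℚ)) : False := by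
  -- (1 - 2X) * F = c 0 + 4 X * gser
  have h1 : (1 - PowerSeries.C (2 : ℚ) * X) * PowerSeries.mk c
      = PowerSeries.C (c 0) + PowerSeries.C (4 : ℚ) * (X * gser) := by
    ext n
    rw [sub_mul, one_mul, map_sub, mul_assoc, PowerSeries.coeff_C_mul, map_add,
      PowerSeries.coeff_C_mul]
    rcases n with _ | n
    · simp
    · rw [PowerSeries.coeff_succ_X_mul, PowerSeries.coeff_succ_X_mul, PowerSeries.coeff_mk,
        PowerSeries.coeff_mk, PowerSeries.coeff_C]
      simp only [Nat.add_eq_zero_iff, one_ne_zero, and_false, if_false]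
      linear_combination hc n
  apply gser_not_rational
    ((1 - Polynomial.C (2 : ℚ) * Polynomial.X) * P - Q * Polynomial.C (c 0))
    (Q * (Polynomial.C (4 : ℚ) * Polynomial.X))
  · apply mul_ne_zero hQ
    apply mul_ne_zero
    · simp
    · exact Polynomial.X_ne_zero
  · push_cast
    linear_combination (-(Q : PowerSeries ℚ)) * h1 + (1 - PowerSeries.C (2 : ℚ) * X) * h

end Run7.h36
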