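import Mathlib

set_option autoImplicit false

/-!
Representations of the Klein four group `ℤˣ × ℤˣ` over `ZMod 2` through two commuting
square-zero operators.
-/

namespace Run7.h36

open CategoryTheory CategoryTheory.MonoidalCategory CategoryTheory.Limits Module

/-- Klein four group -/
abbrev G4 : Type := ℤˣ × ℤˣ
/-- the field with two elements -/
abbrev K2 : Type := ZMod 2

section ops

variable {V W : Type} [AddCommGroup V] [Module K2 V] [AddCommGroup W] [Module K2 W]

lemma add_self2 (v : V) : v + v = 0 := by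
  have h : (2 : K2) • v = 0 := by
    have : (2 : K2) = 0 := by decide
    rw [this, zero_smul]
  rwa [two_smul] at h

lemma end_add_self2 (f : Module.End K2 V) : f + f = 0 := by
  ext v
  simp [add_self2]

/-- first operator `g₁ - 1` -/
noncomputable def oX (ρ : Representation K2 G4 V) : Module.End K2 V := ρ (-1, 1) + 1
/-- second operator `g₂ - 1` -/
noncomputable def oY (ρ : Representation K2 G4 V) : Module.End K2 V := ρ (1, -1) + 1

lemma oX_sq (ρ : Representation K2 G4 V) : oX ρ * oX ρ = 0 := by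
  unfold oX
  have h : ρ (-1, 1) * ρ (-1, 1) = 1 := by
    rw [← map_mul]
    have : ((-1, 1) * (-1, 1) : G4) = 1 := by decide
    rw [this, map_one]
  have h2 := end_add_self2 (ρ (-1, 1))
  have h3 := end_add_self2 (1 : Module.End K2 V)
  calc (ρ (-1, 1) + 1) * (ρ (-1, 1) + 1)
      = ρ (-1, 1) * ρ (-1, 1) + (ρ (-1, 1) + ρ (-1, 1)) + 1 := by noncomm_ring
    _ = 0 := by rw [h, h2, add_zero, h3]

lemma oY_sq (ρ : Representation K2 G4 V) : oY ρ * oY ρ = 0 := by
  unfold oY
  have h : ρ (1, -1) * ρ (1, -1) = 1 := by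
    rw [← map_mul]
    have : ((1, -1) * (1, -1) : G4) = 1 := by decide
    rw [this, map_one]
  have h2 := end_add_self2 (ρ (1, -1))
  have h3 := end_add_self2 (1 : Module.End K2 V)
  calc (ρ (1, -1) + 1) * (ρ (1, -1) + 1)
      = ρ (1, -1) * ρ (1, -1) + (ρ (1, -1) + ρ (1, -1)) + 1 := by noncomm_ring
    _ = 0 := by rw [h, h2, add_zero, h3]

lemma oX_oY (ρ : Representation K2 G4 V) : oX ρ * oY ρ = oY ρ * oX ρ := by
  unfold oX oY
  have h : ρ (-1, 1) * ρ (1, -1) = ρ (1, -1) * ρ (-1, 1) := by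
    rw [← map_mul, ← map_mul]
    rfl
  calc (ρ (-1, 1) + 1) * (ρ (1, -1) + 1)
      = ρ (-1, 1) * ρ (1, -1) + ρ (-1, 1) + ρ (1, -1) + 1 := by noncomm_ring
    _ = (ρ (1, -1) + 1) * (ρ (-1, 1) + 1) := by rw [h]; noncomm_ring

lemma rho_eq (ρ : Representation K2 G4 V) (g : G4) :
    ρ g = (if g.1 = 1 then 1 else 1 + oX ρ) * (if g.2 = 1 then 1 else 1 + oY ρ) := by
  have hx : 1 + oX ρ = ρ (-1, 1) := by
    unfold oX
    have h3 := end_add_self2 (1 : Module.End K2 V)
    calc 1 + (ρ (-1, 1) + 1) = ρ (-1, 1) + (1 + 1) := by abel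
      _ = _ := by rw [h3, add_zero]
  have hy : 1 + oY ρ = ρ (1, -1) := by
    unfold oY
    have h3 := end_add_self2 (1 : Module.End K2 V)
    calc 1 + (ρ (1, -1) + 1) = ρ (1, -1) + (1 + 1) := by abel
      _ = _ := by rw [h3, add_zero]
  rw [hx, hy]
  obtain ⟨a, b⟩ := g
  rcases Int.units_eq_one_or a with rfl | rfl <;> rcases Int.units_eq_one_or b with rfl | rfl
  · simp
    exact map_one ρ
  · simp
  · simp
  · simp
    rw [← map_mul]
    rfl

lemma norm_eq (ρ : Representation K2 G4 V) : ρ.norm = oX ρ * oY ρ := by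
  unfold Representation.norm
  rw [Fintype.sum_prod_type]
  have hu : (Finset.univ : Finset ℤˣ) = {1, -1} := UnitsInt.univ
  rw [hu]
  rw [Finset.sum_pair (by decide), Finset.sum_pair (by decide), Finset.sum_pair (by decide)]
  rw [rho_eq ρ (1, 1), rho_eq ρ (1, -1), rho_eq ρ (-1, 1), rho_eq ρ (-1, -1)]
  simp only [if_true]
  have hne : ¬ ((-1 : ℤˣ) = 1) := by decide
  simp only [hne, if_false, one_mul, mul_one]
  have h1 := end_add_self2 (1 : Module.End K2 V)
  have hX := end_add_self2 (oX ρ)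
  have hY := end_add_self2 (oY ρ)
  calc (1 : Module.End K2 V) + (1 + oY ρ) + ((1 + oX ρ) + (1 + oX ρ) * (1 + oY ρ))
      = (1 + 1) + (1 + 1) + (oX ρ + oX ρ) + (oY ρ + oY ρ) + oX ρ * oY ρ := by noncomm_ring
    _ = _ := by rw [h1, hX, hY]; simp

/-- A linear map commuting with both operators commutes with the group. -/
lemma comm_of_ops {ρ : Representation K2 G4 V} {σ : Representation K2 G4 W} (f : V →ₗ[K2] W)
    (hX : ∀ v, f (oX ρ v) = oX σ (f v)) (hY : ∀ v, f (oY ρ v) = oY σ (f v)) (g : G4) (v : V) :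
    f (ρ g v) = σ g (f v) := by
  rw [rho_eq ρ g, rho_eq σ g]
  by_cases h1 : g.1 = 1 <;> by_cases h2 : g.2 = 1 <;> simp [h1, h2, hX, hY]

lemma ops_of_comm {ρ : Representation K2 G4 V} {σ : Representation K2 G4 W} (f : V →ₗ[K2] W)
    (h : ∀ g v, f (ρ g v) = σ g (f v)) :
    (∀ v, f (oX ρ v) = oX σ (f v)) ∧ (∀ v, f (oY ρ v) = oY σ (f v)) := by
  constructor <;> intro v <;> simp [oX, oY, h]

/-- The representation attached to a pair of commuting square-zero operators. -/
noncomputable def mkR (X Y : Module.End K2 V) (hX : X * X = 0) (hY : Y * Y = 0)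
    (hXY : X * Y = Y * X) : Representation K2 G4 V where
  toFun g := (if g.1 = 1 then 1 else 1 + X) * (if g.2 = 1 then 1 else 1 + Y)
  map_one' := by simp
  map_mul' := by
    rintro ⟨a, b⟩ ⟨c, d⟩
    have hne : ¬ ((-1 : ℤˣ) = 1) := by decide
    have h1 := end_add_self2 (1 : Module.End K2 V)
    have hXX := end_add_self2 X
    have hYY := end_add_self2 Y
    have e1 : (1 + X) * (1 + X) = 1 := by
      calc (1 + X) * (1 + X) = 1 + (X + X) + X * X := by noncomm_ring
        _ = 1 := by rw [hXX, hX]; simp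
    have e2 : (1 + Y) * (1 + Y) = 1 := by
      calc (1 + Y) * (1 + Y) = 1 + (Y + Y) + Y * Y := by noncomm_ring
        _ = 1 := by rw [hYY, hY]; simp
    have e3 : (1 + Y) * (1 + X) = (1 + X) * (1 + Y) := by
      calc (1 + Y) * (1 + X) = 1 + X + Y + Y * X := by noncomm_ring
        _ = 1 + X + Y + X * Y := by rw [hXY]
        _ = _ := by noncomm_ring
    have key : ∀ a b c d : ℤˣ,
        ((if a * c = 1 then 1 else 1 + X) * (if b * d = 1 then 1 else 1 + Y) : Module.End K2 V)
        = (if a = 1 then 1 else 1 + X) * (if b = 1 then 1 else 1 + Y) *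
          ((if c = 1 then 1 else 1 + X) * (if d = 1 then 1 else 1 + Y)) := by
      intro a b c d
      have hA : ∀ a c : ℤˣ, (if a * c = 1 then (1 : Module.End K2 V) else 1 + X)
          = (if a = 1 then 1 else 1 + X) * (if c = 1 then 1 else 1 + X) := by
        intro a c
        rcases Int.units_eq_one_or a with rfl | rfl <;>
        rcases Int.units_eq_one_or c with rfl | rfl <;> simp [hne, e1]
      have hB : ∀ a c : ℤˣ, (if a * c = 1 then (1 : Module.End K2 V) else 1 + Y)
          = (if a = 1 then 1 else 1 + Y) * (if c = 1 then 1 else 1 + Y) := by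
        intro a c
        rcases Int.units_eq_one_or a with rfl | rfl <;>
        rcases Int.units_eq_one_or c with rfl | rfl <;> simp [hne, e2]
      have hC : ∀ b c : ℤˣ, (if b = 1 then (1 : Module.End K2 V) else 1 + Y) *
          (if c = 1 then 1 else 1 + X) = (if c = 1 then 1 else 1 + X) *
          (if b = 1 then (1 : Module.End K2 V) else 1 + Y) := by
        intro b c
        rcases Int.units_eq_one_or b with rfl | rfl <;>
        rcases Int.units_eq_one_or c with rfl | rfl <;> simp [hne, e3]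
      rw [hA, hB]
      simp only [mul_assoc]
      rw [← mul_assoc (if b = 1 then (1 : Module.End K2 V) else 1 + Y)
        (if c = 1 then 1 else 1 + X), hC, mul_assoc]
    exact key a b c d

lemma oX_mkR (X Y : Module.End K2 V) (hX : X * X = 0) (hY : Y * Y = 0)
    (hXY : X * Y = Y * X) : oX (mkR X Y hX hY hXY) = X := by
  unfold oX mkR
  have hne : ¬ ((-1 : ℤˣ) = 1) := by decide
  have h1 := end_add_self2 (1 : Module.End K2 V)
  simp only [MonoidHom.coe_mk, OneHom.coe_mk, hne, if_false, if_true, mul_one]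
  calc 1 + X + 1 = X + (1 + 1) := by abel
    _ = X := by rw [h1, add_zero]

lemma oY_mkR (X Y : Module.End K2 V) (hX : X * X = 0) (hY : Y * Y = 0)
    (hXY : X * Y = Y * X) : oY (mkR X Y hX hY hXY) = Y := by
  unfold oY mkR
  have hne : ¬ ((-1 : ℤˣ) = 1) := by decide
  have h1 := end_add_self2 (1 : Module.End K2 V)
  simp only [MonoidHom.coe_mk, OneHom.coe_mk, hne, if_false, if_true, one_mul]
  calc 1 + Y + 1 = Y + (1 + 1) := by abel
    _ = Y := by rw [h1, add_zero]

lemma oX_prod (ρ : Representation K2 G4 V) (σ : Representation K2 G4 W) (v : V × W) :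
    oX (ρ.prod σ) v = (oX ρ v.1, oX σ v.2) := by
  simp [oX, Prod.ext_iff]

lemma oY_prod (ρ : Representation K2 G4 V) (σ : Representation K2 G4 W) (v : V × W) :
    oY (ρ.prod σ) v = (oY ρ v.1, oY σ v.2) := by
  simp [oY, Prod.ext_iff]

end ops

end Run7.h36
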