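import Mathlib
import Pool.Agent.Run7.h36.RepA

set_option autoImplicit false
set_option linter.unusedVariables false

namespace Run7.h36

open CategoryTheory CategoryTheory.MonoidalCategory CategoryTheory.Limits Module

abbrev RR := Rep.{0} K2 G4

/-- the numerical invariant `dim - 4 rank(norm)` -/
noncomputable def cc (A : RR) : ℤ :=
  (finrank K2 A.V : ℤ) - 4 * (finrank K2 (LinearMap.range (A.ρ.norm)) : ℤ)

/-- an isomorphism from an equivariant linear equivalence -/
noncomputable def isoOf {A B : RR} (e : A.V ≃ₗ[K2] B.V)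
    (h : ∀ g v, e (A.ρ g v) = B.ρ g (e v)) : A ≅ B :=
  Rep.mkIso (ρ := A.ρ) (σ := B.ρ) (Representation.Equiv.mk e (fun g => by
    ext v
    exact h g v))

lemma iso_lin {A B : RR} (i : A ≅ B) :
    ∃ e : A.V ≃ₗ[K2] B.V, ∀ g v, e (A.ρ g v) = B.ρ g (e v) := by
  let E := Representation.equivOfIso i
  refine ⟨E.toLinearEquiv, fun g v => ?_⟩
  exact Representation.IntertwiningMap.isIntertwining _ _ E.toIntertwiningMap g v

lemma cc_iso {A B : RR} (i : A ≅ B) : cc A = cc B := by
  obtain ⟨e, he⟩ := iso_lin i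
  have h1 : finrank K2 A.V = finrank K2 B.V := e.finrank_eq
  have hn : ∀ v, e (A.ρ.norm v) = B.ρ.norm (e v) := by
    intro v
    simp [Representation.norm, he]
  have h2 : Submodule.map (e : A.V →ₗ[K2] B.V) (LinearMap.range A.ρ.norm)
      = LinearMap.range B.ρ.norm := by
    ext w
    constructor
    · rintro ⟨_, ⟨v, rfl⟩, rfl⟩
      exact ⟨e v, (hn v).symm⟩
    · rintro ⟨w, rfl⟩
      refine ⟨A.ρ.norm (e.symm w), ⟨_, rfl⟩, ?_⟩
      have := hn (e.symm w)
      simpa using this
  have h3 : finrank K2 (LinearMap.range A.ρ.norm) = finrank K2 (LinearMap.range B.ρ.norm) := by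
    rw [← h2]
    exact (LinearEquiv.finrank_map_eq e _).symm
  unfold cc
  rw [h1, h3]

/-- concrete product object -/
noncomputable abbrev prodR (A B : RR) : RR := Rep.of (A.ρ.prod B.ρ)

noncomputable def biprodIso (A B : RR) : A ⊞ B ≅ prodR A B :=
  let b : BinaryBicone A B :=
    ⟨Rep.of (X := A.V × B.V) (A.ρ.prod B.ρ),
      Rep.ofHom (Representation.IntertwiningMap.fst K2 A.ρ B.ρ),
      Rep.ofHom (Representation.IntertwiningMap.snd K2 A.ρ B.ρ),
      Rep.ofHom (Representation.IntertwiningMap.inl K2 A.ρ B.ρ),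
      Rep.ofHom (Representation.IntertwiningMap.inr K2 A.ρ B.ρ),
      by ext1; simp,
      by ext1; simp [Rep.zero_hom], by ext1; simp [Rep.zero_hom], by ext1; simp⟩
  let hb : b.IsBilimit := isBinaryBilimitOfTotal _ (by ext1; simp [b, Rep.add_hom])
  (biprod.uniqueUpToIso A B hb).symm

lemma norm_prod (A B : RR) : (prodR A B).ρ.norm = (A.ρ.norm).prodMap (B.ρ.norm) := by
  apply LinearMap.ext
  rintro ⟨v, w⟩
  simp [Representation.norm, Prod.ext_iff, Prod.fst_sum, Prod.snd_sum]

def sprodEquiv {V W : Type} [AddCommGroup V] [Module K2 V] [AddCommGroup W] [Module K2 W]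
    (p : Submodule K2 V) (q : Submodule K2 W) : (p.prod q) ≃ₗ[K2] (p × q) where
  toFun x := (⟨x.1.1, x.2.1⟩, ⟨x.1.2, x.2.2⟩)
  invFun x := ⟨(x.1.1, x.2.1), ⟨x.1.2, x.2.2⟩⟩
  left_inv x := rfl
  right_inv x := rfl
  map_add' x y := rfl
  map_smul' a x := rfl

lemma cc_prod (A B : RR) [FiniteDimensional K2 A.V] [FiniteDimensional K2 B.V] :
    cc (prodR A B) = cc A + cc B := by
  unfold cc
  rw [norm_prod]
  have h1 : finrank K2 (prodR A B).V = finrank K2 A.V + finrank K2 B.V :=
    Module.finrank_prod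
  have h2 : finrank K2 (LinearMap.range (LinearMap.prodMap A.ρ.norm B.ρ.norm))
      = finrank K2 (LinearMap.range A.ρ.norm) + finrank K2 (LinearMap.range B.ρ.norm) := by
    rw [LinearMap.range_prodMap]
    rw [← Module.finrank_prod]
    exact LinearEquiv.finrank_eq (sprodEquiv _ _)
  rw [h1, h2]
  push_cast
  ring

end Run7.h36
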