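import Mathlib
import Pool.Agent.Run7.h36.RepB

set_option autoImplicit false
set_option linter.unusedVariables false

namespace Run7.h36

open CategoryTheory CategoryTheory.MonoidalCategory CategoryTheory.Limits Module

section free

variable (U : Type) [AddCommGroup U] [Module K2 U]

/-- `(p,q,r,s) ↦ (0,p,0,r)` -/
def fX : Module.End K2 (U × U × U × U) where
  toFun v := (0, v.1, 0, v.2.2.1)
  map_add' a b := by simp
  map_smul' a b := by simp

/-- `(p,q,r,s) ↦ (0,0,p,q)` -/
def fY : Module.End K2 (U × U × U × U) where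
  toFun v := (0, 0, v.1, v.2.1)
  map_add' a b := by simp
  map_smul' a b := by simp

lemma fX_apply (v : U × U × U × U) : fX U v = (0, v.1, 0, v.2.2.1) := rfl
lemma fY_apply (v : U × U × U × U) : fY U v = (0, 0, v.1, v.2.1) := rfl

lemma fX_sq : fX U * fX U = 0 := by
  ext v <;> simp [fX]

lemma fY_sq : fY U * fY U = 0 := by
  ext v <;> simp [fY]

lemma fX_fY : fX U * fY U = fY U * fX U := by
  ext v <;> simp [fX, fY]

/-- free representation `K[G] ⊗ U` -/
noncomputable def FRrho : Representation K2 G4 (U × U × U × U) :=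
  mkR (fX U) (fY U) (fX_sq U) (fY_sq U) (fX_fY U)

lemma FRrho_oX : oX (FRrho U) = fX U := oX_mkR _ _ _ _ _
lemma FRrho_oY : oY (FRrho U) = fY U := oY_mkR _ _ _ _ _

/-- free representation -/
noncomputable abbrev FR : RR := Rep.of (FRrho U)

/-- the linear map underlying `FRlift` -/
noncomputable def FRlin {V : Type} [AddCommGroup V] [Module K2 V] (ρ : Representation K2 G4 V)
    (l : U →ₗ[K2] V) : (U × U × U × U) →ₗ[K2] V :=
  ((l ∘ₗ LinearMap.fst K2 U (U × U × U)) +
        ((oX ρ ∘ₗ l) ∘ₗ (LinearMap.fst K2 U (U × U) ∘ₗ LinearMap.snd K2 U (U × U × U))) +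
        ((oY ρ ∘ₗ l) ∘ₗ (LinearMap.fst K2 U U ∘ₗ LinearMap.snd K2 U (U × U)
          ∘ₗ LinearMap.snd K2 U (U × U × U))) +
        (((oX ρ * oY ρ) ∘ₗ l) ∘ₗ (LinearMap.snd K2 U U ∘ₗ LinearMap.snd K2 U (U × U)
          ∘ₗ LinearMap.snd K2 U (U × U × U))))

lemma FRlin_apply {V : Type} [AddCommGroup V] [Module K2 V] (ρ : Representation K2 G4 V)
    (l : U →ₗ[K2] V) (v : U × U × U × U) :
    FRlin U ρ l v = l v.1 + oX ρ (l v.2.1) + oY ρ (l v.2.2.1)
      + oX ρ (oY ρ (l v.2.2.2)) := rfl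

lemma oX_sq' {V : Type} [AddCommGroup V] [Module K2 V] (ρ : Representation K2 G4 V) (v : V) :
    oX ρ (oX ρ v) = 0 := LinearMap.congr_fun (oX_sq ρ) v
lemma oY_sq' {V : Type} [AddCommGroup V] [Module K2 V] (ρ : Representation K2 G4 V) (v : V) :
    oY ρ (oY ρ v) = 0 := LinearMap.congr_fun (oY_sq ρ) v
lemma oY_oX' {V : Type} [AddCommGroup V] [Module K2 V] (ρ : Representation K2 G4 V) (v : V) :
    oY ρ (oX ρ v) = oX ρ (oY ρ v) := (LinearMap.congr_fun (oX_oY ρ) v).symm

lemma FRlin_comm {V : Type} [AddCommGroup V] [Module K2 V] (ρ : Representation K2 G4 V)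
    (l : U →ₗ[K2] V) (g : G4) (v : U × U × U × U) :
    FRlin U ρ l (FRrho U g v) = ρ g (FRlin U ρ l v) := by
  apply comm_of_ops
  · rintro ⟨p, q, r, s⟩
    rw [FRrho_oX, FRlin_apply, FRlin_apply, fX_apply]
    simp [oX_sq']
  · rintro ⟨p, q, r, s⟩
    rw [FRrho_oY, FRlin_apply, FRlin_apply, fY_apply]
    simp [oY_sq', oY_oX']

/-- equivariant map out of the free representation given by a linear map on the generators -/
noncomputable def FRlift {B : RR} (l : U →ₗ[K2] B.V) : FR U ⟶ B :=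
  Rep.ofHom (ρ := FRrho U) (σ := B.ρ)
    (LinearMap.intertwiningMap_of_isIntertwiningMap (FRrho U) B.ρ (FRlin U B.ρ l)
      (FRlin_comm U B.ρ l))

lemma FRlift_apply {B : RR} (l : U →ₗ[K2] B.V) (v : (FR U).V) :
    (FRlift U l).hom v = FRlin U B.ρ l v := rfl

lemma hom_comm {A B : RR} (f : A ⟶ B) (g : G4) (v : A.V) : f.hom (A.ρ g v) = B.ρ g (f.hom v) :=
  Rep.hom_comm_apply f g v

lemma hom_oX {A B : RR} (f : A ⟶ B) (v : A.V) : f.hom (oX A.ρ v) = oX B.ρ (f.hom v) :=
  (ops_of_comm (f.hom.toLinearMap) (hom_comm f)).1 v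

lemma hom_oY {A B : RR} (f : A ⟶ B) (v : A.V) : f.hom (oY A.ρ v) = oY B.ρ (f.hom v) :=
  (ops_of_comm (f.hom.toLinearMap) (hom_comm f)).2 v

lemma FR_decomp (v : U × U × U × U) :
    v = (v.1, 0, 0, 0) + oX (FRrho U) (v.2.1, 0, 0, 0) + oY (FRrho U) (v.2.2.1, 0, 0, 0)
      + oX (FRrho U) (oY (FRrho U) (v.2.2.2, 0, 0, 0)) := by
  obtain ⟨p, q, r, s⟩ := v
  rw [FRrho_oX, FRrho_oY]
  simp [fX_apply, fY_apply]

lemma FR_ext {B : RR} (f g : FR U ⟶ B)
    (h : ∀ u : U, f.hom (show (FR U).V from (u, 0, 0, 0))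
      = g.hom (show (FR U).V from (u, 0, 0, 0))) :
    f = g := by
  apply Rep.hom_ext
  apply Representation.IntertwiningMap.ext
  apply LinearMap.ext
  intro v
  have key : ∀ f : FR U ⟶ B, f.hom v = f.hom (show (FR U).V from (v.1, 0, 0, 0))
        + oX B.ρ (f.hom (show (FR U).V from (v.2.1, 0, 0, 0)))
        + oY B.ρ (f.hom (show (FR U).V from (v.2.2.1, 0, 0, 0)))
        + oX B.ρ (oY B.ρ (f.hom (show (FR U).V from (v.2.2.2, 0, 0, 0)))) := by
    intro f
    have h1 : f.hom v = f.hom ((show (FR U).V from (v.1, 0, 0, 0))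
        + oX (FR U).ρ (show (FR U).V from (v.2.1, 0, 0, 0))
        + oY (FR U).ρ (show (FR U).V from (v.2.2.1, 0, 0, 0))
        + oX (FR U).ρ (oY (FR U).ρ (show (FR U).V from (v.2.2.2, 0, 0, 0)))) :=
      congrArg _ (FR_decomp U v)
    rw [h1, map_add, map_add, map_add, hom_oX, hom_oY, hom_oX, hom_oY]
  have h1 := key f
  have h2 := key g
  rw [h, h, h, h] at h1
  exact h1.trans h2.symm

instance FR_projective : Projective (FR U) where
  factors {E B} f e he := by
    have hs : Function.Surjective e.hom := (Rep.epi_iff_surjective e).1 he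
    obtain ⟨s, hs'⟩ := LinearMap.exists_rightInverse_of_surjective (e.hom.toLinearMap)
      (LinearMap.range_eq_top.2 hs)
    let l : U →ₗ[K2] E.V := s ∘ₗ f.hom.toLinearMap ∘ₗ (LinearMap.inl K2 U (U × U × U))
    refine ⟨FRlift U l, ?_⟩
    apply FR_ext
    intro u
    have h1 : (FRlift U l ≫ e).hom (show (FR U).V from (u, 0, 0, 0))
        = e.hom (FRlin U E.ρ l (u, 0, 0, 0)) := rfl
    rw [h1, FRlin_apply]
    simp only [map_zero, add_zero]
    have h3 := LinearMap.congr_fun hs' (f.hom (show (FR U).V from (u, 0, 0, 0)))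
    exact h3

lemma FR_norm (v : U × U × U × U) : (FRrho U).norm v = ((0, 0, 0, v.1) : U × U × U × U) := by
  rw [norm_eq, Module.End.mul_apply, FRrho_oY, FRrho_oX]
  rfl

lemma cc_FR [FiniteDimensional K2 U] : cc (FR U) = 0 := by
  unfold cc
  have h1 : finrank K2 (FR U).V = 4 * finrank K2 U := by
    have : finrank K2 (U × U × U × U) = 4 * finrank K2 U := by
      rw [Module.finrank_prod, Module.finrank_prod, Module.finrank_prod]
      ring
    exact this
  have h2 : finrank K2 (LinearMap.range ((FR U).ρ.norm)) = finrank K2 U := by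
    let j : U →ₗ[K2] (U × U × U × U) := LinearMap.inr K2 U (U × U × U) ∘ₗ
      LinearMap.inr K2 U (U × U) ∘ₗ LinearMap.inr K2 U U
    have hj : Function.Injective j := by
      intro a b hab
      simpa [j] using hab
    have hr : LinearMap.range ((FRrho U).norm) = LinearMap.range j := by
      ext w
      constructor
      · rintro ⟨v, rfl⟩
        exact ⟨v.1, (FR_norm U v).symm⟩
      · rintro ⟨u, rfl⟩
        exact ⟨((u, 0, 0, 0) : U × U × U × U), FR_norm U _⟩
    have : finrank K2 (LinearMap.range ((FRrho U).norm)) = finrank K2 U := by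
      rw [hr]
      exact LinearMap.finrank_range_of_inj hj
    exact this
  rw [h1, h2]
  push_cast
  ring

end free

end Run7.h36
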