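import Mathlib
import Pool.Agent.Run7.h36.RepC

set_option autoImplicit false
set_option linter.unusedVariables false

namespace Run7.h36

open CategoryTheory CategoryTheory.MonoidalCategory CategoryTheory.Limits Module

/-- Two equivariant injections with the same range have isomorphic sources. -/
lemma iso_of_range {A B E : RR} (j : A.V →ₗ[K2] E.V) (j' : B.V →ₗ[K2] E.V)
    (hj : Function.Injective j) (hj' : Function.Injective j')
    (hjc : ∀ g v, j (A.ρ g v) = E.ρ g (j v)) (hjc' : ∀ g v, j' (B.ρ g v) = E.ρ g (j' v))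
    (hr : LinearMap.range j = LinearMap.range j') : Nonempty (A ≅ B) := by
  let e : A.V ≃ₗ[K2] B.V := (LinearEquiv.ofInjective j hj).trans
    ((LinearEquiv.ofEq _ _ hr).trans (LinearEquiv.ofInjective j' hj').symm)
  have he : ∀ v, j' (e v) = j v := by
    intro v
    have h1 : (LinearEquiv.ofInjective j' hj') (e v)
        = (LinearEquiv.ofEq _ _ hr) ((LinearEquiv.ofInjective j hj) v) := by
      simp [e]
    have h2 := congrArg Subtype.val h1
    simpa using h2
  refine ⟨isoOf e ?_⟩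
  intro g v
  apply hj'
  rw [he, hjc, hjc', he]

theorem schanuel {K F W K' F' : RR} (i : K ⟶ F) (p : F ⟶ W) (i' : K' ⟶ F') (p' : F' ⟶ W)
    (hi : Function.Injective i.hom) (hp : Function.Surjective p.hom)
    (hex : ∀ f, p.hom f = 0 ↔ ∃ k, i.hom k = f)
    (hi' : Function.Injective i'.hom) (hp' : Function.Surjective p'.hom)
    (hex' : ∀ f, p'.hom f = 0 ↔ ∃ k, i'.hom k = f)
    (hF : Projective F) (hF' : Projective F') :
    Nonempty (prodR K F' ≅ prodR K' F) := by
  have : Epi p := (Rep.epi_iff_surjective p).2 hp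
  have : Epi p' := (Rep.epi_iff_surjective p').2 hp'
  let a : F ⟶ F' := Projective.factorThru p p'
  have ha : a ≫ p' = p := Projective.factorThru_comp _ _
  let b : F' ⟶ F := Projective.factorThru p' p
  have hb : b ≫ p = p' := Projective.factorThru_comp _ _
  have ha' : ∀ f, p'.hom (a.hom f) = p.hom f := by
    intro f
    have := congrArg (fun h : F ⟶ W => h.hom f) ha
    exact this
  have hb' : ∀ f, p.hom (b.hom f) = p'.hom f := by
    intro f
    have := congrArg (fun h : F' ⟶ W => h.hom f) hb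
    exact this
  let j : (prodR K F').V →ₗ[K2] (prodR F F').V :=
    LinearMap.prod ((i.hom.toLinearMap ∘ₗ LinearMap.fst K2 K.V F'.V)
      + (b.hom.toLinearMap ∘ₗ LinearMap.snd K2 K.V F'.V)) (LinearMap.snd K2 K.V F'.V)
  let j' : (prodR K' F).V →ₗ[K2] (prodR F F').V :=
    LinearMap.prod (LinearMap.snd K2 K'.V F.V) ((i'.hom.toLinearMap ∘ₗ LinearMap.fst K2 K'.V F.V)
      + (a.hom.toLinearMap ∘ₗ LinearMap.snd K2 K'.V F.V))
  have hjv : ∀ (k : K.V) (f' : F'.V), j (k, f') = (i.hom k + b.hom f', f') := fun _ _ => rfl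
  have hjv' : ∀ (k : K'.V) (f : F.V), j' (k, f) = (f, i'.hom k + a.hom f) := fun _ _ => rfl
  apply iso_of_range (A := prodR K F') (B := prodR K' F) (E := prodR F F') j j'
  · rintro ⟨k, f⟩ ⟨k2, f2⟩ h
    rw [hjv, hjv] at h
    obtain ⟨h1, h2⟩ := Prod.mk.inj h
    subst h2
    have := hi (add_right_cancel h1)
    rw [this]
  · rintro ⟨k, f⟩ ⟨k2, f2⟩ h
    rw [hjv', hjv'] at h
    obtain ⟨h1, h2⟩ := Prod.mk.inj h
    subst h1
    have := hi' (add_right_cancel h2)
    rw [this]
  · rintro g ⟨k, f⟩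
    change (i.hom (K.ρ g k) + b.hom (F'.ρ g f), F'.ρ g f)
      = (F.ρ g (i.hom k + b.hom f), F'.ρ g f)
    rw [map_add, hom_comm, hom_comm]
  · rintro g ⟨k, f⟩
    change (F.ρ g f, i'.hom (K'.ρ g k) + a.hom (F.ρ g f))
      = (F.ρ g f, F'.ρ g (i'.hom k + a.hom f))
    rw [map_add, hom_comm, hom_comm]
  · apply le_antisymm
    · rintro _ ⟨⟨k, f⟩, rfl⟩
      rw [hjv]
      have h1 : p.hom (i.hom k) = 0 := (hex _).2 ⟨k, rfl⟩
      have h2 : p'.hom (f - a.hom (i.hom k + b.hom f)) = 0 := by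
        rw [map_sub, ha', map_add, h1, hb', zero_add, sub_self]
      obtain ⟨k', hk'⟩ := (hex' _).1 h2
      refine ⟨(k', i.hom k + b.hom f), ?_⟩
      rw [hjv', hk']
      simp
    · rintro _ ⟨⟨k, f⟩, rfl⟩
      rw [hjv']
      have h1 : p'.hom (i'.hom k) = 0 := (hex' _).2 ⟨k, rfl⟩
      have h2 : p.hom (f - b.hom (i'.hom k + a.hom f)) = 0 := by
        rw [map_sub, hb', map_add, h1, ha', zero_add, sub_self]
      obtain ⟨k', hk'⟩ := (hex _).1 h2
      refine ⟨(k', i'.hom k + a.hom f), ?_⟩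
      rw [hjv, hk']
      simp

/-- If `θ : A ⟶ P` is surjective and `P` is projective then `A ≅ ker θ × P`. -/
lemma split_iso {A P : RR} (t : A ⟶ P) (ht : Function.Surjective t.hom) (hP : Projective P) :
    ∃ N : RR, Nonempty (A ≅ prodR N P) ∧ (finrank K2 N.V = finrank K2 (LinearMap.ker
      t.hom.toLinearMap)) := by
  have : Epi t := (Rep.epi_iff_surjective t).2 ht
  let s : P ⟶ A := Projective.factorThru (𝟙 P) t
  have hs : s ≫ t = 𝟙 P := Projective.factorThru_comp _ _
  have hs' : ∀ x, t.hom (s.hom x) = x := by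
    intro x
    exact congrArg (fun h : P ⟶ P => h.hom x) hs
  have hinv : ∀ g : G4, LinearMap.ker t.hom.toLinearMap ≤
      (LinearMap.ker t.hom.toLinearMap).comap (A.ρ g) := by
    intro g x hx
    have hx' : t.hom x = 0 := hx
    change t.hom (A.ρ g x) = 0
    rw [hom_comm, hx', map_zero]
  refine ⟨Rep.subrepresentation A (LinearMap.ker t.hom.toLinearMap) hinv, ?_, rfl⟩
  let j : (prodR (Rep.subrepresentation A (LinearMap.ker t.hom.toLinearMap) hinv) P).V
      →ₗ[K2] A.V := LinearMap.coprod (Submodule.subtype _) s.hom.toLinearMap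
  have hj : ∀ (x : LinearMap.ker t.hom.toLinearMap) (y : P.V),
      j (x, y) = x.1 + s.hom y := fun _ _ => rfl
  have hker : ∀ x : LinearMap.ker t.hom.toLinearMap, t.hom x.1 = 0 := fun x => x.2
  apply iso_of_range (A := A)
    (B := prodR (Rep.subrepresentation A (LinearMap.ker t.hom.toLinearMap) hinv) P) (E := A)
    LinearMap.id j
  · exact fun _ _ h => h
  · rintro ⟨x, y⟩ ⟨x', y'⟩ h
    rw [hj, hj] at h
    have h1 := congrArg (fun z => t.hom z) h
    simp only [map_add, hker, hs', zero_add] at h1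
    subst h1
    have := Subtype.ext (add_right_cancel h)
    rw [this]
  · intro g v; rfl
  · rintro g ⟨x, y⟩
    change A.ρ g x.1 + s.hom (P.ρ g y) = A.ρ g (x.1 + s.hom y)
    rw [map_add, hom_comm]
  · apply le_antisymm
    · rintro x -
      have hx : t.hom (x - s.hom (t.hom x)) = 0 := by
        rw [map_sub, hs', sub_self]
      refine ⟨(⟨x - s.hom (t.hom x), hx⟩, t.hom x), ?_⟩
      rw [hj]
      simp
    · intro x _
      exact ⟨x, rfl⟩

end Run7.h36
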