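import Mathlib
import Pool.Agent.Run7.h36.RepD

set_option autoImplicit false
set_option linter.unusedVariables false

namespace Run7.h36

open CategoryTheory CategoryTheory.MonoidalCategory CategoryTheory.Limits Module

/-- coordinates of `w` with respect to a functional -/
noncomputable def thlin {V : Type} [AddCommGroup V] [Module K2 V] (ρ : Representation K2 G4 V)
    (φ : V →ₗ[K2] K2) : V →ₗ[K2] (K2 × K2 × K2 × K2) :=
  LinearMap.prod (φ ∘ₗ (oX ρ * oY ρ)) (LinearMap.prod (φ ∘ₗ oY ρ)
    (LinearMap.prod (φ ∘ₗ oX ρ) φ))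

lemma thlin_apply {V : Type} [AddCommGroup V] [Module K2 V] (ρ : Representation K2 G4 V)
    (φ : V →ₗ[K2] K2) (w : V) :
    thlin ρ φ w = (φ (oX ρ (oY ρ w)), φ (oY ρ w), φ (oX ρ w), φ w) := rfl

lemma thlin_comm {V : Type} [AddCommGroup V] [Module K2 V] (ρ : Representation K2 G4 V)
    (φ : V →ₗ[K2] K2) (g : G4) (w : V) : thlin ρ φ (ρ g w) = FRrho K2 g (thlin ρ φ w) := by
  apply comm_of_ops
  · intro w
    rw [FRrho_oX, fX_apply, thlin_apply, thlin_apply, oX_sq', oY_oX', oX_sq']
    simp
  · intro w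
    rw [FRrho_oY, fY_apply, thlin_apply, thlin_apply, oY_sq']
    simp

lemma thlin_surj {V : Type} [AddCommGroup V] [Module K2 V] (ρ : Representation K2 G4 V)
    (φ : V →ₗ[K2] K2) (v : V) (hv : φ (oX ρ (oY ρ v)) = 1) :
    Function.Surjective (thlin ρ φ) := by
  rintro ⟨p, q, r, s⟩
  set a := φ (oY ρ v) with ha
  set b := φ (oX ρ v) with hb
  set c := φ v with hc
  refine ⟨p • v + (q - p * a) • oX ρ v + (r - p * b) • oY ρ v
    + (s - p * c - (q - p * a) * b - (r - p * b) * a) • oX ρ (oY ρ v), ?_⟩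
  rw [thlin_apply]
  simp only [map_add, map_smul, oX_sq', oY_sq', oY_oX', map_zero, smul_zero, add_zero,
    smul_eq_mul, hv, ← ha, ← hb, ← hc, mul_one]
  ext <;> ring

lemma fd_of_iso_left {A B C : RR} (i : A ≅ prodR B C) [FiniteDimensional K2 A.V] :
    FiniteDimensional K2 B.V := by
  obtain ⟨e, -⟩ := iso_lin i
  have : Function.Surjective ((LinearMap.fst K2 B.V C.V) ∘ₗ e.toLinearMap) := by
    intro b
    obtain ⟨x, hx⟩ := e.surjective (show (prodR B C).V from (b, 0))
    exact ⟨x, congrArg Prod.fst hx⟩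
  exact Module.Finite.of_surjective _ this

lemma fd_of_iso_right {A B C : RR} (i : A ≅ prodR B C) [FiniteDimensional K2 A.V] :
    FiniteDimensional K2 C.V := by
  obtain ⟨e, -⟩ := iso_lin i
  have : Function.Surjective ((LinearMap.snd K2 B.V C.V) ∘ₗ e.toLinearMap) := by
    intro b
    obtain ⟨x, hx⟩ := e.surjective (show (prodR B C).V from (0, b))
    exact ⟨x, congrArg Prod.snd hx⟩
  exact Module.Finite.of_surjective _ this

noncomputable def prodAssocIso (A B C : RR) : prodR (prodR A B) C ≅ prodR A (prodR B C) :=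
  isoOf (A := prodR (prodR A B) C) (B := prodR A (prodR B C))
    (LinearEquiv.prodAssoc K2 A.V B.V C.V) (fun g v => rfl)

noncomputable def prodCongrIso {A B C D : RR} (i : A ≅ B) (j : C ≅ D) : prodR A C ≅ prodR B D :=
  (biprodIso A C).symm ≪≫ biprod.mapIso i j ≪≫ biprodIso B D

lemma projective_prod {A B : RR} (hA : Projective A) (hB : Projective B) :
    Projective (prodR A B) :=
  Projective.of_iso (biprodIso A B) inferInstance

/-- zero object -/
noncomputable abbrev ZR : RR := FR PUnit

noncomputable def prodZeroIso (A : RR) : A ≅ prodR A ZR :=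
  (isoOf (A := prodR A ZR) (B := A)
    { toFun := fun x => x.1
      invFun := fun a => (a, 0)
      left_inv := fun x => by
        apply Prod.ext
        · rfl
        · exact Subsingleton.elim (α := PUnit × PUnit × PUnit × PUnit) _ _
      right_inv := fun a => rfl
      map_add' := fun _ _ => rfl
      map_smul' := fun _ _ => rfl } (fun g v => rfl)).symm

theorem exists_core (n : ℕ) : ∀ (A : RR), FiniteDimensional K2 A.V → finrank K2 A.V = n →
    ∃ N P : RR, Projective P ∧ cc P = 0 ∧ N.ρ.norm = 0 ∧ Nonempty (A ≅ prodR N P) := by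
  induction n using Nat.strong_induction_on with
  | _ n ih =>
    intro A hfd hn
    by_cases h0 : A.ρ.norm = 0
    · exact ⟨A, ZR, inferInstance, cc_FR _, h0, ⟨prodZeroIso A⟩⟩
    · have : ∃ v, A.ρ.norm v ≠ 0 := by
        by_contra hcon
        push Not at hcon
        exact h0 (LinearMap.ext hcon)
      obtain ⟨v, hv⟩ := this
      have h1 : ∃ φ : Dual K2 A.V, φ (A.ρ.norm v) ≠ 0 := by
        by_contra hcon
        push Not at hcon
        exact hv ((Module.forall_dual_apply_eq_zero_iff K2 _).1 hcon)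
      obtain ⟨φ, hφ⟩ := h1
      have hφ1 : φ (oX A.ρ (oY A.ρ v)) = 1 := by
        have h2 : φ (A.ρ.norm v) = 1 := by
          have : ∀ x : K2, x ≠ 0 → x = 1 := by decide
          exact this _ hφ
        rw [norm_eq] at h2
        exact h2
      let t : A ⟶ FR K2 := Rep.ofHom (ρ := A.ρ) (σ := FRrho K2)
        (LinearMap.intertwiningMap_of_isIntertwiningMap A.ρ (FRrho K2) (thlin A.ρ φ)
          (thlin_comm A.ρ φ))
      have ht : Function.Surjective t.hom := thlin_surj A.ρ φ v hφ1
      obtain ⟨N1, ⟨i1⟩, hN1⟩ := split_iso t ht inferInstance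
      have hN1fd : FiniteDimensional K2 N1.V := fd_of_iso_left i1
      have hlt : finrank K2 N1.V < n := by
        rw [hN1, ← hn]
        have hrk := LinearMap.finrank_range_add_finrank_ker t.hom.toLinearMap
        have hr : finrank K2 (LinearMap.range t.hom.toLinearMap) = 4 := by
          have : LinearMap.range t.hom.toLinearMap = ⊤ := LinearMap.range_eq_top.2 ht
          rw [this, finrank_top]
          have : finrank K2 (K2 × K2 × K2 × K2) = 4 := by
            rw [Module.finrank_prod, Module.finrank_prod, Module.finrank_prod, finrank_self]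
          exact this
        omega
      obtain ⟨N, P, hP, hPc, hN, ⟨i2⟩⟩ := ih _ hlt N1 hN1fd rfl
      have hPfd : FiniteDimensional K2 P.V := fd_of_iso_right i2
      refine ⟨N, prodR P (FR K2), projective_prod hP inferInstance, ?_, hN,
        ⟨i1 ≪≫ prodCongrIso i2 (Iso.refl _) ≪≫ prodAssocIso _ _ _⟩⟩
      rw [cc_prod, hPc, cc_FR, add_zero]

lemma cc_of_norm_zero {N : RR} (h : N.ρ.norm = 0) : cc N = finrank K2 N.V := by
  unfold cc
  have : finrank K2 (LinearMap.range N.ρ.norm) = 0 := by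
    rw [h, LinearMap.range_zero, finrank_bot]
  rw [this]
  simp

lemma cc_nonneg (A : RR) [hA : FiniteDimensional K2 A.V] : 0 ≤ cc A := by
  obtain ⟨N, P, hP, hPc, hN, ⟨i⟩⟩ := exists_core _ A hA rfl
  have := fd_of_iso_left i
  have := fd_of_iso_right i
  rw [cc_iso i, cc_prod, hPc, cc_of_norm_zero hN]
  positivity

lemma cc_projective (P : RR) [hP : FiniteDimensional K2 P.V] (h : Projective P) : cc P = 0 := by
  have hs : Function.Surjective (FRlift P.V (B := P) LinearMap.id).hom := by
    intro x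
    refine ⟨(show (FR P.V).V from (x, 0, 0, 0)), ?_⟩
    rw [FRlift_apply, FRlin_apply]
    simp
  obtain ⟨N, ⟨i⟩, -⟩ := split_iso (FRlift P.V (B := P) LinearMap.id) hs h
  have hfd : FiniteDimensional K2 (FR P.V).V :=
    inferInstanceAs (FiniteDimensional K2 (P.V × P.V × P.V × P.V))
  have := fd_of_iso_left i
  have h1 := cc_iso i
  rw [cc_prod, cc_FR] at h1
  have h2 := cc_nonneg N
  have h3 := cc_nonneg P
  omega

lemma cc_le_finrank (N : RR) : cc N ≤ finrank K2 N.V := by
  unfold cc
  have : (0 : ℤ) ≤ (finrank K2 (LinearMap.range N.ρ.norm) : ℤ) := by positivity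
  omega

/-- the core dimension is `cc` -/
theorem core_formula (A : RR) [hA : FiniteDimensional K2 A.V] :
    ((sInf {d : ℕ | ∃ N P' : RR, Projective P' ∧ Nonempty (A ≅ N ⊞ P') ∧
      finrank K2 N.V = d} : ℕ) : ℤ) = cc A := by
  set S : Set ℕ := {d : ℕ | ∃ N P' : RR, Projective P' ∧ Nonempty (A ≅ N ⊞ P') ∧
      finrank K2 N.V = d} with hS
  have hlow : ∀ d ∈ S, cc A ≤ (d : ℤ) := by
    rintro d ⟨N, P, hP, ⟨i⟩, rfl⟩
    have j : A ≅ prodR N P := i ≪≫ biprodIso N P
    have := fd_of_iso_left j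
    have := fd_of_iso_right j
    rw [cc_iso j, cc_prod, cc_projective P hP, add_zero]
    exact cc_le_finrank N
  obtain ⟨N, P, hP, hPc, hN, ⟨i⟩⟩ := exists_core _ A hA rfl
  have := fd_of_iso_left i
  have := fd_of_iso_right i
  have hmem : finrank K2 N.V ∈ S := ⟨N, P, hP, ⟨i ≪≫ (biprodIso N P).symm⟩, rfl⟩
  have hcc : cc A = finrank K2 N.V := by
    rw [cc_iso i, cc_prod, hPc, cc_of_norm_zero hN, add_zero]
  have h1 := hlow _ (Nat.sInf_mem ⟨_, hmem⟩)
  have h2 := Nat.sInf_le hmem
  omega

end Run7.h36
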