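import Mathlib
import Pool.Agent.Run7.h36.RepE

set_option autoImplicit false
set_option linter.unusedVariables false

namespace Run7.h36

open CategoryTheory CategoryTheory.MonoidalCategory CategoryTheory.Limits Module

section tensor

instance ihom_epi (A : RR) : ((CategoryTheory.ihom A)).PreservesEpimorphisms where
  preserves {B C} f hf := by
    have hs : Function.Surjective f.hom := (Rep.epi_iff_surjective f).1 hf
    obtain ⟨s, hs'⟩ := LinearMap.exists_rightInverse_of_surjective (f.hom.toLinearMap)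
      (LinearMap.range_eq_top.2 hs)
    rw [Rep.epi_iff_surjective]
    intro φ
    let ψ : A.V →ₗ[K2] C.V := φ
    refine ⟨(s ∘ₗ ψ : A.V →ₗ[K2] B.V), ?_⟩
    have : f.hom.toLinearMap ∘ₗ (s ∘ₗ ψ) = ψ := by
      rw [← LinearMap.comp_assoc, hs', LinearMap.id_comp]
    exact this

lemma projective_tensor (A P : RR) (hP : Projective P) : Projective (A ⊗ P) :=
  (ihom.adjunction A).map_projective P hP

lemma lT_inj (A : RR) {K F : RR} (i : K ⟶ F) (hi : Function.Injective i.hom) :
    Function.Injective (A ◁ i).hom := by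
  have := Module.Flat.lTensor_preserves_injective_linearMap (M := A.V) i.hom.toLinearMap hi
  exact this

lemma lT_surj (A : RR) {F W : RR} (p : F ⟶ W) (hp : Function.Surjective p.hom) :
    Function.Surjective (A ◁ p).hom := by
  have := LinearMap.lTensor_surjective A.V (g := p.hom.toLinearMap) hp
  exact this

lemma lT_exact (A : RR) {K F W : RR} (i : K ⟶ F) (p : F ⟶ W)
    (hp : Function.Surjective p.hom) (hex : ∀ f, p.hom f = 0 ↔ ∃ k, i.hom k = f) (f : (A ⊗ F).V) :
    (A ◁ p).hom f = 0 ↔ ∃ k, (A ◁ i).hom k = f := by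
  have h1 : Function.Exact i.hom.toLinearMap p.hom.toLinearMap := by
    intro y
    exact hex y
  have := lTensor_exact A.V h1 hp
  exact this f

end tensor

/-- numerical Schanuel lemma -/
theorem cc_schanuel {K F W K' F' : RR} (i : K ⟶ F) (p : F ⟶ W) (i' : K' ⟶ F') (p' : F' ⟶ W)
    (hi : Function.Injective i.hom) (hp : Function.Surjective p.hom)
    (hex : ∀ f, p.hom f = 0 ↔ ∃ k, i.hom k = f)
    (hi' : Function.Injective i'.hom) (hp' : Function.Surjective p'.hom)
    (hex' : ∀ f, p'.hom f = 0 ↔ ∃ k, i'.hom k = f)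
    (hF : Projective F) (hF' : Projective F')
    [FiniteDimensional K2 K.V] [FiniteDimensional K2 F.V]
    [FiniteDimensional K2 K'.V] [FiniteDimensional K2 F'.V] :
    cc K = cc K' := by
  obtain ⟨e⟩ := schanuel i p i' p' hi hp hex hi' hp' hex' hF hF'
  have h := cc_iso e
  rw [cc_prod, cc_prod, cc_projective F hF, cc_projective F' hF', add_zero, add_zero] at h
  exact h

section two

variable {U1 U2 : Type} [AddCommGroup U1] [Module K2 U1] [AddCommGroup U2] [Module K2 U2]

/-- `(a,b) ↦ (0, α a)` -/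
def lowOp (α : U1 →ₗ[K2] U2) : Module.End K2 (U1 × U2) where
  toFun v := (0, α v.1)
  map_add' a b := by simp
  map_smul' a b := by simp

lemma lowOp_apply (α : U1 →ₗ[K2] U2) (v : U1 × U2) : lowOp α v = (0, α v.1) := rfl

lemma lowOp_mul (α β : U1 →ₗ[K2] U2) : lowOp α * lowOp β = 0 := by
  apply LinearMap.ext
  intro v
  rw [Module.End.mul_apply, lowOp_apply, lowOp_apply]
  simp

/-- two-layer representation -/
noncomputable def Lrho (α β : U1 →ₗ[K2] U2) : Representation K2 G4 (U1 × U2) :=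
  mkR (lowOp α) (lowOp β) (lowOp_mul _ _) (lowOp_mul _ _) ((lowOp_mul _ _).trans
    (lowOp_mul _ _).symm)

lemma Lrho_oX (α β : U1 →ₗ[K2] U2) : oX (Lrho α β) = lowOp α := oX_mkR _ _ _ _ _
lemma Lrho_oY (α β : U1 →ₗ[K2] U2) : oY (Lrho α β) = lowOp β := oY_mkR _ _ _ _ _

lemma Lrho_norm (α β : U1 →ₗ[K2] U2) : (Lrho α β).norm = 0 := by
  rw [norm_eq, Lrho_oX, Lrho_oY, lowOp_mul]

/-- two-layer representation -/
noncomputable abbrev LR (α β : U1 →ₗ[K2] U2) : RR := Rep.of (Lrho α β)

end two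

/-- `a ↦ a ∘ castSucc` -/
def cS (m : ℕ) : (Fin (m + 1) → K2) →ₗ[K2] (Fin m → K2) where
  toFun a := fun j => a j.castSucc
  map_add' a b := rfl
  map_smul' a b := rfl
/-- `a ↦ a ∘ succ` -/
def sS (m : ℕ) : (Fin (m + 1) → K2) →ₗ[K2] (Fin m → K2) where
  toFun a := fun j => a j.succ
  map_add' a b := rfl
  map_smul' a b := rfl
/-- `a ↦ cons 0 a` -/
def c0 (m : ℕ) : (Fin m → K2) →ₗ[K2] (Fin (m + 1) → K2) where
  toFun a := Fin.cons (α := fun _ => K2) 0 a
  map_add' a b := by
    ext j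
    refine Fin.cases ?_ (fun j => ?_) j <;> simp
  map_smul' a b := by
    ext j
    refine Fin.cases ?_ (fun j => ?_) j <;> simp
/-- `a ↦ snoc a 0` -/
def s0 (m : ℕ) : (Fin m → K2) →ₗ[K2] (Fin (m + 1) → K2) where
  toFun a := Fin.snoc (α := fun _ => K2) a 0
  map_add' a b := by
    ext j
    refine Fin.lastCases ?_ (fun j => ?_) j <;> simp
  map_smul' a b := by
    ext j
    refine Fin.lastCases ?_ (fun j => ?_) j <;> simp

/-- `Ω^m k`, `m ≥ 0` -/
noncomputable abbrev Wp (m : ℕ) : RR := LR (cS m) (sS m)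
/-- `Ω^{-m} k`, `m ≥ 0` -/
noncomputable abbrev Wm (m : ℕ) : RR := LR (c0 m) (s0 m)

lemma cc_Wp (m : ℕ) : cc (Wp m) = 2 * m + 1 := by
  rw [cc_of_norm_zero (Lrho_norm _ _)]
  have : finrank K2 ((Fin (m + 1) → K2) × (Fin m → K2)) = 2 * m + 1 := by
    rw [Module.finrank_prod, Module.finrank_fin_fun, Module.finrank_fin_fun]
    ring
  exact_mod_cast this

lemma cc_Wm (m : ℕ) : cc (Wm m) = 2 * m + 1 := by
  rw [cc_of_norm_zero (Lrho_norm _ _)]
  have : finrank K2 ((Fin m → K2) × (Fin (m + 1) → K2)) = 2 * m + 1 := by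
    rw [Module.finrank_prod, Module.finrank_fin_fun, Module.finrank_fin_fun]
    ring
  exact_mod_cast this

end Run7.h36
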