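import Mathlib
import Pool.Agent.Run7.h36.RepF

set_option autoImplicit false
set_option linter.unusedVariables false

namespace Run7.h36

open CategoryTheory CategoryTheory.MonoidalCategory CategoryTheory.Limits Module

/-- morphism from a linear map commuting with the operators -/
noncomputable def homOps {A B : RR} (f : A.V →ₗ[K2] B.V)
    (hX : ∀ v, f (oX A.ρ v) = oX B.ρ (f v)) (hY : ∀ v, f (oY A.ρ v) = oY B.ρ (f v)) : A ⟶ B :=
  Rep.ofHom (ρ := A.ρ) (σ := B.ρ)
    (LinearMap.intertwiningMap_of_isIntertwiningMap A.ρ B.ρ f (comm_of_ops f hX hY))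

section gen

variable {U1 U2 U3 : Type} [AddCommGroup U1] [Module K2 U1] [AddCommGroup U2] [Module K2 U2]
  [AddCommGroup U3] [Module K2 U3]

/-- projection `FR U1 ⟶ LR α β`, `(p,q,r,s) ↦ (p, α q + β r)` -/
noncomputable def pL (α β : U1 →ₗ[K2] U2) : FR U1 ⟶ LR α β :=
  FRlift U1 (B := LR α β) (LinearMap.inl K2 U1 U2)

lemma pL_apply (α β : U1 →ₗ[K2] U2) (v : U1 × U1 × U1 × U1) :
    (pL α β).hom (show (FR U1).V from v) = (v.1, α v.2.1 + β v.2.2.1) := by
  have h1 : (pL α β).hom (show (FR U1).V from v) = FRlin U1 (Lrho α β) (LinearMap.inl K2 U1 U2) v :=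
    rfl
  rw [h1, FRlin_apply, Lrho_oX, Lrho_oY, lowOp_apply, lowOp_apply, lowOp_apply, lowOp_apply]
  simp

/-- inclusion `LR β' α' ⟶ FR U1`, `(A,B) ↦ (0, α' A, β' A, B)` where `LR β' α'` has
`X (A,B) = (0, β' A)`, `Y (A,B) = (0, α' A)`. -/
noncomputable def iL (α' β' : U3 →ₗ[K2] U1) : LR β' α' ⟶ FR U1 :=
  homOps (A := LR β' α') (B := FR U1)
    (LinearMap.prod 0 (LinearMap.prod (α' ∘ₗ LinearMap.fst K2 U3 U1)
      (LinearMap.prod (β' ∘ₗ LinearMap.fst K2 U3 U1) (LinearMap.snd K2 U3 U1))))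
    (by
      rintro ⟨a, b⟩
      have h1 : oX (Rep.ρ (LR β' α')) = lowOp β' := Lrho_oX β' α'
      have h2 : oX (Rep.ρ (FR U1)) = fX U1 := FRrho_oX U1
      rw [h1, h2, fX_apply, lowOp_apply]
      simp)
    (by
      rintro ⟨a, b⟩
      have h1 : oY (Rep.ρ (LR β' α')) = lowOp α' := Lrho_oY β' α'
      have h2 : oY (Rep.ρ (FR U1)) = fY U1 := FRrho_oY U1
      rw [h1, h2, fY_apply, lowOp_apply]
      simp)

lemma iL_apply (α' β' : U3 →ₗ[K2] U1) (v : U3 × U1) :
    (iL α' β').hom (show (LR β' α').V from v) = (0, α' v.1, β' v.1, v.2) := rfl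

lemma pL_surj (α β : U1 →ₗ[K2] U2) (h : ∀ b, ∃ q r, α q + β r = b) :
    Function.Surjective (pL α β).hom := by
  rintro ⟨a, b⟩
  obtain ⟨q, r, hb⟩ := h b
  refine ⟨(show (FR U1).V from (a, q, r, 0)), ?_⟩
  rw [pL_apply, ← hb]

lemma iL_inj (α' β' : U3 →ₗ[K2] U1) (h : ∀ a, α' a = 0 → β' a = 0 → a = 0) :
    Function.Injective (iL α' β').hom := by
  have key : ∀ v, (iL α' β').hom v = 0 → v = 0 := by
    rintro ⟨a, b⟩ hv
    rw [iL_apply] at hv
    have h1 : α' a = 0 := congrArg (fun x : U1 × U1 × U1 × U1 => x.2.1) hv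
    have h2 : β' a = 0 := congrArg (fun x : U1 × U1 × U1 × U1 => x.2.2.1) hv
    have h3 : b = 0 := congrArg (fun x : U1 × U1 × U1 × U1 => x.2.2.2) hv
    rw [h a h1 h2, h3]
    rfl
  intro v w hvw
  have := key (v - w) (by rw [map_sub, hvw, sub_self])
  exact sub_eq_zero.1 this

lemma pi_exact (α β : U1 →ₗ[K2] U2) (α' β' : U3 →ₗ[K2] U1)
    (h : ∀ q r, α q + β r = 0 ↔ ∃ a, α' a = q ∧ β' a = r) :
    ∀ f, (pL α β).hom f = 0 ↔ ∃ k, (iL α' β').hom k = f := by
  rintro ⟨p, q, r, s⟩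
  rw [pL_apply]
  constructor
  · intro hv
    have h1 : p = 0 := congrArg (fun x : U1 × U2 => x.1) hv
    have h2 : α q + β r = 0 := congrArg (fun x : U1 × U2 => x.2) hv
    obtain ⟨a, ha, hb⟩ := (h q r).1 h2
    refine ⟨(a, s), ?_⟩
    rw [iL_apply, h1]
    simp only [ha, hb]
  · rintro ⟨⟨a, b⟩, hv⟩
    rw [iL_apply] at hv
    have h0 : 0 = p := congrArg (fun x : U1 × U1 × U1 × U1 => x.1) hv
    have h1 : α' a = q := congrArg (fun x : U1 × U1 × U1 × U1 => x.2.1) hv
    have h2 : β' a = r := congrArg (fun x : U1 × U1 × U1 × U1 => x.2.2.1) hv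
    have h3 := (h q r).2 ⟨a, h1, h2⟩
    simp only [h3, ← h0]
    rfl

end gen

lemma char2_add_eq_zero {V : Type} [AddCommGroup V] [Module K2 V] (a b : V) :
    a + b = 0 ↔ a = b := by
  constructor
  · intro h
    have h2 := add_self2 b
    have : a + b = b + b := by rw [h, h2]
    exact add_right_cancel this
  · rintro rfl
    exact add_self2 _

lemma seqp_exact (m : ℕ) (q r : Fin (m + 1) → K2) :
    cS m q + sS m r = 0 ↔ ∃ a : Fin (m + 2) → K2, sS (m + 1) a = q ∧ cS (m + 1) a = r := by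
  rw [char2_add_eq_zero]
  constructor
  · intro h
    refine ⟨Fin.cons (α := fun _ => K2) (r 0) q, ?_, ?_⟩
    · ext j
      simp [sS]
    · ext j
      refine Fin.cases ?_ (fun j => ?_) j
      · simp [cS]
      · have := congrFun h j
        simp only [cS, sS, LinearMap.coe_mk, AddHom.coe_mk] at this ⊢
        rw [← Fin.succ_castSucc, Fin.cons_succ]
        exact this
  · rintro ⟨a, rfl, rfl⟩
    ext j
    simp [cS, sS]

lemma seqp_surj (m : ℕ) (b : Fin m → K2) : ∃ q r : Fin (m + 1) → K2, cS m q + sS m r = b := by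
  refine ⟨Fin.snoc (α := fun _ => K2) b 0, 0, ?_⟩
  ext j
  simp [cS]

lemma seqp_inj (m : ℕ) (a : Fin (m + 2) → K2) (h1 : sS (m + 1) a = 0) (h2 : cS (m + 1) a = 0) :
    a = 0 := by
  ext j
  refine Fin.cases ?_ (fun j => ?_) j
  · have := congrFun h2 0
    simpa [cS] using this
  · have := congrFun h1 j
    simpa [sS] using this

lemma seqm_exact (m : ℕ) (q r : Fin (m + 1) → K2) :
    c0 (m + 1) q + s0 (m + 1) r = 0 ↔ ∃ a : Fin m → K2, s0 m a = q ∧ c0 m a = r := by
  rw [char2_add_eq_zero]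
  constructor
  · intro h
    -- cons 0 q = snoc r 0
    have h0 : r 0 = 0 := by
      have := congrFun h 0
      simp only [c0, s0, LinearMap.coe_mk, AddHom.coe_mk, Fin.cons_zero] at this
      have h2 : (Fin.snoc (α := fun _ => K2) r 0 : Fin (m + 2) → K2) (Fin.castSucc 0) = r 0 := by
        rw [Fin.snoc_castSucc]
      rw [Fin.castSucc_zero] at h2
      rw [← h2, ← this]
    have hl : q (Fin.last m) = 0 := by
      have := congrFun h (Fin.last (m + 1))
      simp only [c0, s0, LinearMap.coe_mk, AddHom.coe_mk] at this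
      rw [Fin.snoc_last, ← Fin.succ_last, Fin.cons_succ] at this
      exact this
    have hm : ∀ j : Fin m, q j.castSucc = r j.succ := by
      intro j
      have := congrFun h (j.castSucc.succ)
      simp only [c0, s0, LinearMap.coe_mk, AddHom.coe_mk] at this
      rw [Fin.cons_succ, Fin.succ_castSucc, Fin.snoc_castSucc] at this
      exact this
    refine ⟨fun j => q j.castSucc, ?_, ?_⟩
    · ext j
      refine Fin.lastCases ?_ (fun j => ?_) j
      · simp [s0, hl]
      · simp [s0]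
    · ext j
      refine Fin.cases ?_ (fun j => ?_) j
      · simp [c0, h0]
      · simp [c0, hm]
  · rintro ⟨a, rfl, rfl⟩
    change Fin.cons (α := fun _ => K2) 0 (Fin.snoc (α := fun _ => K2) a 0)
      = Fin.snoc (α := fun _ => K2) (Fin.cons (α := fun _ => K2) 0 a) 0
    exact Fin.cons_snoc_eq_snoc_cons _ _ _

lemma seqm_surj (m : ℕ) (b : Fin (m + 2) → K2) :
    ∃ q r : Fin (m + 1) → K2, c0 (m + 1) q + s0 (m + 1) r = b := by
  refine ⟨fun j => b j.succ, Fin.cons (α := fun _ => K2) (b 0) (fun _ => 0), ?_⟩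
  have h1 : (s0 (m + 1) (Fin.cons (α := fun _ => K2) (b 0) (fun _ : Fin m => (0 : K2))))
      = Fin.cons (α := fun _ => K2) (b 0)
        (Fin.snoc (α := fun _ => K2) (fun _ : Fin m => (0 : K2)) 0) :=
    (Fin.cons_snoc_eq_snoc_cons _ _ _).symm
  rw [h1]
  ext j
  refine Fin.cases ?_ (fun j => ?_) j
  · simp [c0]
  · simp only [c0, LinearMap.coe_mk, AddHom.coe_mk, Pi.add_apply, Fin.cons_succ]
    have : (Fin.snoc (α := fun _ => K2) (fun _ : Fin m => (0 : K2)) 0 : Fin (m + 1) → K2) j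
        = 0 := by
      refine Fin.lastCases ?_ (fun j => ?_) j <;> simp
    rw [this, add_zero]

lemma seqm_inj (m : ℕ) (a : Fin m → K2) (h1 : s0 m a = 0) (h2 : c0 m a = 0) :
    a = 0 := by
  ext j
  have := congrFun h2 j.succ
  simpa [c0] using this

end Run7.h36
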