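import Mathlib
import Pool.Agent.Run7.h36.RepG
import Pool.Agent.Run7.h36.PS

set_option autoImplicit false
set_option linter.unusedVariables false

namespace Run7.h36

open CategoryTheory CategoryTheory.MonoidalCategory CategoryTheory.Limits Module

theorem cc_schanuel' {K F W K' F' W' : RR} (i : K ⟶ F) (p : F ⟶ W) (i' : K' ⟶ F')
    (p' : F' ⟶ W') (j : W' ≅ W)
    (hi : Function.Injective i.hom) (hp : Function.Surjective p.hom)
    (hex : ∀ f, p.hom f = 0 ↔ ∃ k, i.hom k = f)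
    (hi' : Function.Injective i'.hom) (hp' : Function.Surjective p'.hom)
    (hex' : ∀ f, p'.hom f = 0 ↔ ∃ k, i'.hom k = f)
    (hF : Projective F) (hF' : Projective F')
    [FiniteDimensional K2 K.V] [FiniteDimensional K2 F.V]
    [FiniteDimensional K2 K'.V] [FiniteDimensional K2 F'.V] :
    cc K = cc K' := by
  have hj : ∀ x, j.inv.hom (j.hom.hom x) = x := fun x => Rep.inv_hom_apply _ _ j x
  have hj' : ∀ x, j.hom.hom (j.inv.hom x) = x := fun x => Rep.hom_inv_apply _ _ j x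
  refine cc_schanuel i p i' (p' ≫ j.hom) hi hp hex hi' ?_ ?_ hF hF'
  · intro x
    obtain ⟨y, hy⟩ := hp' (j.inv.hom x)
    refine ⟨y, ?_⟩
    change j.hom.hom (p'.hom y) = x
    rw [hy, hj']
  · intro f
    rw [← hex']
    change j.hom.hom (p'.hom f) = 0 ↔ _
    constructor
    · intro h
      have := congrArg (fun z => j.inv.hom z) h
      simp only [hj, map_zero] at this
      exact this
    · intro h
      rw [h, map_zero]

instance fd_tensor (A B : RR) [h1 : FiniteDimensional K2 A.V] [h2 : FiniteDimensional K2 B.V] :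
    FiniteDimensional K2 (A ⊗ B).V :=
  inferInstanceAs (FiniteDimensional K2 (TensorProduct K2 A.V B.V))

/-- isomorphism from a linear equivalence commuting with the operators -/
noncomputable def isoOps {A B : RR} (e : A.V ≃ₗ[K2] B.V)
    (hX : ∀ v, e (oX A.ρ v) = oX B.ρ (e v)) (hY : ∀ v, e (oY A.ρ v) = oY B.ρ (e v)) : A ≅ B :=
  isoOf e (comm_of_ops e.toLinearMap hX hY)

lemma oX_triv (v : K2) : oX (Representation.trivial K2 G4 K2) v = 0 := by
  simp [oX, add_self2]
lemma oY_triv (v : K2) : oY (Representation.trivial K2 G4 K2) v = 0 := by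
  simp [oY, add_self2]

noncomputable def Wp0Iso : Wp 0 ≅ 𝟙_ RR :=
  isoOps (A := Wp 0) (B := 𝟙_ RR)
    { toFun := fun x => x.1 0
      invFun := fun a => (fun _ => a, 0)
      left_inv := fun x => by
        apply Prod.ext
        · funext j
          have : j = 0 := Subsingleton.elim (α := Fin 1) _ _
          rw [this]
        · exact Subsingleton.elim (α := Fin 0 → K2) _ _
      right_inv := fun a => rfl
      map_add' := fun _ _ => rfl
      map_smul' := fun _ _ => rfl }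
    (by
      intro v
      have h1 : oX (Rep.ρ (Wp 0)) = lowOp (cS 0) := Lrho_oX _ _
      have h2 : ∀ x : K2, oX (Rep.ρ (𝟙_ RR)) x = 0 := oX_triv
      rw [h1, lowOp_apply, h2]
      rfl)
    (by
      intro v
      have h1 : oY (Rep.ρ (Wp 0)) = lowOp (sS 0) := Lrho_oY _ _
      have h2 : ∀ x : K2, oY (Rep.ρ (𝟙_ RR)) x = 0 := oY_triv
      rw [h1, lowOp_apply, h2]
      rfl)

noncomputable def Wm0Iso : Wm 0 ≅ 𝟙_ RR :=
  isoOps (A := Wm 0) (B := 𝟙_ RR)
    { toFun := fun x => x.2 0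
      invFun := fun a => (0, fun _ => a)
      left_inv := fun x => by
        apply Prod.ext
        · exact Subsingleton.elim (α := Fin 0 → K2) _ _
        · funext j
          have : j = 0 := Subsingleton.elim (α := Fin 1) _ _
          rw [this]
      right_inv := fun a => rfl
      map_add' := fun _ _ => rfl
      map_smul' := fun _ _ => rfl }
    (by
      rintro ⟨v, w⟩
      have h0 : v = 0 := Subsingleton.elim (α := Fin 0 → K2) _ _
      have h1 : oX (Rep.ρ (Wm 0)) = lowOp (c0 0) := Lrho_oX _ _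
      have h2 : ∀ x : K2, oX (Rep.ρ (𝟙_ RR)) x = 0 := oX_triv
      rw [h1, lowOp_apply, h2, h0]
      change (c0 0) 0 0 = 0
      rw [map_zero]
      rfl)
    (by
      rintro ⟨v, w⟩
      have h0 : v = 0 := Subsingleton.elim (α := Fin 0 → K2) _ _
      have h1 : oY (Rep.ρ (Wm 0)) = lowOp (s0 0) := Lrho_oY _ _
      have h2 : ∀ x : K2, oY (Rep.ρ (𝟙_ RR)) x = 0 := oY_triv
      rw [h1, lowOp_apply, h2, h0]
      change (s0 0) 0 0 = 0
      rw [map_zero]
      rfl)

instance fd_LR {U1 U2 : Type} [AddCommGroup U1] [Module K2 U1] [AddCommGroup U2] [Module K2 U2]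
    [FiniteDimensional K2 U1] [FiniteDimensional K2 U2] (α β : U1 →ₗ[K2] U2) :
    FiniteDimensional K2 (LR α β).V :=
  inferInstanceAs (FiniteDimensional K2 (U1 × U2))

instance fd_FR {U1 : Type} [AddCommGroup U1] [Module K2 U1]
    [FiniteDimensional K2 U1] :
    FiniteDimensional K2 (FR U1).V :=
  inferInstanceAs (FiniteDimensional K2 (U1 × U1 × U1 × U1))

theorem step_gen {U1 U2 U3 : Type} [AddCommGroup U1] [Module K2 U1] [AddCommGroup U2]
    [Module K2 U2] [AddCommGroup U3] [Module K2 U3] [FiniteDimensional K2 U1]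
    [FiniteDimensional K2 U2] [FiniteDimensional K2 U3]
    (α β : U1 →ₗ[K2] U2) (α' β' : U3 →ₗ[K2] U1)
    (h1 : ∀ b, ∃ q r, α q + β r = b) (h2 : ∀ a, α' a = 0 → β' a = 0 → a = 0)
    (h3 : ∀ q r, α q + β r = 0 ↔ ∃ a, α' a = q ∧ β' a = r)
    (X : RR) [FiniteDimensional K2 X.V] :
    cc (X ⊗ LR β' α') = cc ((X ⊗ LR α β) ⊗ Wp 1) := by
  apply cc_schanuel' (F := X ⊗ FR U1) (W := X ⊗ LR α β)
    (F' := (X ⊗ LR α β) ⊗ FR (Fin 1 → K2)) (W' := (X ⊗ LR α β) ⊗ Wp 0)
    (X ◁ iL α' β') (X ◁ pL α β)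
    ((X ⊗ LR α β) ◁ iL (sS 1) (cS 1)) ((X ⊗ LR α β) ◁ pL (cS 0) (sS 0))
    (whiskerLeftIso _ Wp0Iso ≪≫ ρ_ _)
  · exact lT_inj _ _ (iL_inj _ _ h2)
  · exact lT_surj _ _ (pL_surj _ _ h1)
  · exact lT_exact _ _ _ (pL_surj _ _ h1) (pi_exact _ _ _ _ h3)
  · exact lT_inj _ _ (iL_inj _ _ (seqp_inj 0))
  · exact lT_surj _ _ (pL_surj _ _ (seqp_surj 0))
  · exact lT_exact _ _ _ (pL_surj _ _ (seqp_surj 0)) (pi_exact _ _ _ _ (seqp_exact 0))
  · exact projective_tensor _ _ inferInstance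
  · exact projective_tensor _ _ inferInstance

/-- `Ω^i k` -/
noncomputable def Wz : ℤ → RR
  | Int.ofNat m => Wp m
  | Int.negSucc m => Wm (m + 1)

instance fd_Wz (i : ℤ) : FiniteDimensional K2 (Wz i).V := by
  cases i with
  | ofNat m => exact fd_LR (cS m) (sS m)
  | negSucc m => exact fd_LR (c0 (m + 1)) (s0 (m + 1))

lemma cc_Wz (i : ℤ) : cc (Wz i) = 2 * |i| + 1 := by
  cases i with
  | ofNat m =>
    have : cc (Wz (Int.ofNat m)) = 2 * m + 1 := cc_Wp m
    rw [this]
    simp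
  | negSucc m =>
    have : cc (Wz (Int.negSucc m)) = 2 * ((m + 1 : ℕ) : ℤ) + 1 := cc_Wm (m + 1)
    rw [this, Int.negSucc_eq, abs_neg, abs_of_nonneg (by positivity)]
    push_cast
    ring

theorem step (i : ℤ) (X : RR) [FiniteDimensional K2 X.V] :
    cc ((X ⊗ Wz i) ⊗ Wz 1) = cc (X ⊗ Wz (i + 1)) := by
  cases i with
  | ofNat m =>
    exact (step_gen (cS m) (sS m) (sS (m + 1)) (cS (m + 1)) (seqp_surj m) (seqp_inj m)
      (seqp_exact m) X).symm
  | negSucc m =>
    have h := (step_gen (c0 (m + 1)) (s0 (m + 1)) (s0 m) (c0 m) (seqm_surj m) (seqm_inj m)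
      (seqm_exact m) X).symm
    cases m with
    | zero =>
      have h2 : cc (X ⊗ Wm 0) = cc (X ⊗ Wp 0) :=
        cc_iso (whiskerLeftIso X (Wm0Iso ≪≫ Wp0Iso.symm))
      exact h.trans h2
    | succ m =>
      exact h

end Run7.h36
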