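import Mathlib
import Pool.Agent.Run7.h36.RepH

set_option autoImplicit false
set_option linter.unusedVariables false

namespace Run7.h36

open CategoryTheory CategoryTheory.MonoidalCategory CategoryTheory.Limits Module

/-- the module `Ω k ⊕ Ω⁻¹ k` -/
noncomputable abbrev MM : RR := prodR (Wz 1) (Wz (-1))

/-- tensor powers -/
noncomputable def TT (n : ℕ) : RR := (fun X : RR => X ⊗ MM)^[n] (𝟙_ RR)

lemma TT_zero : TT 0 = 𝟙_ RR := rfl
lemma TT_succ (n : ℕ) : TT (n + 1) = TT n ⊗ MM := by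
  unfold TT
  rw [Function.iterate_succ_apply']

instance fd_prodR (A B : RR) [FiniteDimensional K2 A.V] [FiniteDimensional K2 B.V] :
    FiniteDimensional K2 (prodR A B).V :=
  inferInstanceAs (FiniteDimensional K2 (A.V × B.V))

instance fd_TT (n : ℕ) : FiniteDimensional K2 (TT n).V := by
  induction n with
  | zero => exact inferInstanceAs (FiniteDimensional K2 K2)
  | succ n ih =>
    rw [TT_succ]
    infer_instance

instance pbb (T W : RR) : PreservesBinaryBiproducts (tensorLeft T ⋙ tensorRight W) :=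
  preservesBinaryBiproducts_of_preservesBiproducts _

/-- distributivity -/
noncomputable def distIso (T A B W : RR) :
    (T ⊗ prodR A B) ⊗ W ≅ prodR ((T ⊗ A) ⊗ W) ((T ⊗ B) ⊗ W) :=
  whiskerRightIso (whiskerLeftIso T (biprodIso A B).symm) W ≪≫
    (tensorLeft T ⋙ tensorRight W).mapBiprod A B ≪≫ biprodIso _ _

/-- swapping the last two factors -/
noncomputable def swapIso (T A B : RR) : (T ⊗ A) ⊗ B ≅ (T ⊗ B) ⊗ A :=
  α_ T A B ≪≫ whiskerLeftIso T (β_ A B) ≪≫ (α_ T B A).symm

/-- `D n i` -/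
noncomputable def DD (n : ℕ) (i : ℤ) : ℤ := cc (TT n ⊗ Wz i)

lemma DD_zero (i : ℤ) : DD 0 i = 2 * |i| + 1 := by
  unfold DD
  rw [TT_zero, cc_iso (λ_ (Wz i)), cc_Wz]

lemma cc_Wz_zero (X : RR) : cc (X ⊗ Wz 0) = cc X :=
  cc_iso (whiskerLeftIso X Wp0Iso ≪≫ ρ_ X)

lemma DD_succ (n : ℕ) (i : ℤ) : DD (n + 1) i = DD n (i + 1) + DD n (i - 1) := by
  unfold DD
  rw [TT_succ, cc_iso (distIso (TT n) (Wz 1) (Wz (-1)) (Wz i)), cc_prod]
  congr 1
  · rw [cc_iso (swapIso (TT n) (Wz 1) (Wz i)), step]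
  · have h1 := step (i - 1) (TT n ⊗ Wz (-1))
    rw [sub_add_cancel] at h1
    rw [← h1, cc_iso (whiskerRightIso (swapIso (TT n) (Wz (-1)) (Wz (i - 1))) (Wz 1)),
      step (-1) (TT n ⊗ Wz (i - 1))]
    exact cc_Wz_zero _

lemma cc_TT (n : ℕ) : cc (TT n) = DD n 0 := (cc_Wz_zero _).symm

/-- walks -/
def ww : ℕ → ℤ → ℤ
  | 0, i => if i = 0 then 1 else 0
  | n + 1, i => ww n (i + 1) + ww n (i - 1)

lemma ww_big (n : ℕ) : ∀ i : ℤ, (n : ℤ) < i → ww n i = 0 := by
  induction n with
  | zero =>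
    intro i hi
    have : i ≠ 0 := by
      rintro rfl
      simp at hi
    simp [ww, this]
  | succ n ih =>
    intro i hi
    push_cast at hi
    simp only [ww]
    rw [ih (i + 1) (by omega), ih (i - 1) (by omega), add_zero]

lemma ww_choose (n : ℕ) : ∀ j : ℕ, ww n ((n : ℤ) - 2 * j) = (n.choose j : ℤ) := by
  induction n with
  | zero =>
    intro j
    rcases j with _ | j
    · simp [ww]
    · have : ((0 : ℕ) : ℤ) - 2 * ((j + 1 : ℕ) : ℤ) ≠ 0 := by push_cast; omega
      simp only [ww]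
      rw [if_neg this]
      simp
  | succ n ih =>
    intro j
    simp only [ww]
    have h2 : ((n + 1 : ℕ) : ℤ) - 2 * (j : ℤ) - 1 = (n : ℤ) - 2 * j := by push_cast; ring
    rw [h2, ih j]
    rcases j with _ | j
    · rw [ww_big n _ (by push_cast; omega)]
      simp
    · have h1 : ((n + 1 : ℕ) : ℤ) - 2 * ((j + 1 : ℕ) : ℤ) + 1 = (n : ℤ) - 2 * j := by
        push_cast; ring
      rw [h1, ih j, Nat.choose_succ_succ]
      push_cast
      ring

lemma ww_odd (n : ℕ) : ∀ i : ℤ, Odd ((n : ℤ) + i) → ww n i = 0 := by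
  induction n with
  | zero =>
    intro i hi
    have : i ≠ 0 := by
      rintro rfl
      simp at hi
    simp [ww, this]
  | succ n ih =>
    intro i hi
    push_cast at hi
    simp only [ww]
    rw [ih (i + 1) (by
      have : (n : ℤ) + (i + 1) = (n : ℤ) + 1 + i := by ring
      rwa [this]), ih (i - 1) (by
      have : (n : ℤ) + (i - 1) = (n : ℤ) + 1 + i - 2 := by ring
      rw [this]
      exact hi.sub_even (by decide)), add_zero]

lemma ww_center (n : ℕ) : ((ww n 0 : ℤ) : ℚ) = PowerSeries.coeff n gser := by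
  rcases Nat.even_or_odd' n with ⟨m, rfl | rfl⟩
  · rw [gser_coeff_even]
    have h := ww_choose (2 * m) m
    have h0 : ((2 * m : ℕ) : ℤ) - 2 * (m : ℤ) = 0 := by push_cast; ring
    rw [h0] at h
    rw [h, Nat.centralBinom]
    simp
  · rw [gser_coeff_odd, ww_odd (2 * m + 1) 0 (by
      push_cast
      exact ⟨m, by ring⟩)]
    simp

lemma DD_second (n : ℕ) : ∀ i : ℤ, DD n (i + 1) - 2 * DD n i + DD n (i - 1) = 4 * ww n i := by
  induction n with
  | zero =>
    intro i
    rw [DD_zero, DD_zero, DD_zero]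
    simp only [ww]
    split_ifs with h
    · subst h
      simp
    · rcases lt_or_gt_of_ne h with h | h
      · rw [abs_of_nonpos (by omega), abs_of_nonpos (by omega), abs_of_nonpos (by omega)]
        ring
      · rw [abs_of_nonneg (by omega), abs_of_nonneg (by omega), abs_of_nonneg (by omega)]
        ring
  | succ n ih =>
    intro i
    simp only [ww]
    rw [DD_succ, DD_succ, DD_succ]
    have h1 := ih (i + 1)
    have h2 := ih (i - 1)
    rw [add_sub_cancel_right] at h1 ⊢
    rw [sub_add_cancel] at h2 ⊢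
    linear_combination h1 + h2

lemma core_rec (n : ℕ) : ((cc (TT (n + 1)) : ℤ) : ℚ)
    = 2 * ((cc (TT n) : ℤ) : ℚ) + 4 * PowerSeries.coeff n gser := by
  rw [← ww_center]
  have h := DD_second n 0
  have h1 := DD_succ n 0
  rw [cc_TT, cc_TT]
  have : DD (n + 1) 0 = 2 * DD n 0 + 4 * ww n 0 := by
    rw [h1]
    linear_combination h
  rw [this]
  push_cast
  ring

end Run7.h36
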